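import Mathlib
import Pool.Agent.LibHinf.Main
import Pool.Agent.LibHinf.Easy

set_option autoImplicit false
open MeasureTheory
open scoped ENNReal

namespace Pool.Agent.Results.MP_4ac5ef_an.ExposedPoints

open Pool.Agent.LibHinf

/-- The point `x` of the subspace `p` of a normed space `X` is an exposed point of the closed unit
ball of `p`: some `φ` in the dual space of `p` with `‖φ‖ = 1` takes the value `1` in the closed unit
ball of `p` at `x` and only there. -/
def IsExposedPoint {X : Type} [NormedAddCommGroup X] [NormedSpace ℂ X] (p : Submodule ℂ X)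
    (x : p) : Prop :=
  ∃ φ : StrongDual ℂ p, ‖φ‖ = 1 ∧ {y : p | ‖y‖ ≤ 1 ∧ φ y = 1} = {x}

/-- The Banach space `L^∞` of the circle. -/
def Linf : Type := Lp ℂ ∞ mm

noncomputable instance instLinfGroup : NormedAddCommGroup Linf :=
  Lp.instNormedAddCommGroup (E := ℂ) (p := ∞) (μ := mm)

noncomputable instance instLinfSpace : NormedSpace ℂ Linf :=
  Lp.instNormedSpace (𝕜 := ℂ) (E := ℂ) (p := ∞) (μ := mm)

/-- The function on the circle (defined up to null sets) given by an element of `L^∞`. -/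
noncomputable def fn (f : Linf) : TT → ℂ := fun ζ => (show Lp ℂ ∞ mm from f) ζ

/-- The Fourier coefficients of negative index of `f` vanish. -/
def IsAnalytic (f : Linf) : Prop := ∀ k : ℤ, k < 0 → fourierCoeff (fn f) k = 0

theorem isAnalytic_zero : IsAnalytic 0 := Hinf.zero_mem'

theorem isAnalytic_add {f g : Linf} (hf : IsAnalytic f) (hg : IsAnalytic g) :
    IsAnalytic (f + g) := Hinf.add_mem' hf hg

theorem isAnalytic_smul (c : ℂ) {f : Linf} (hf : IsAnalytic f) : IsAnalytic (c • f) :=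
  Hinf.smul_mem' c hf

/-- The subspace of all `f` in `L^∞` whose Fourier coefficients of negative index vanish. -/
noncomputable def analyticPart : Submodule ℂ Linf where
  carrier := {f | IsAnalytic f}
  zero_mem' := isAnalytic_zero
  add_mem' := isAnalytic_add
  smul_mem' := isAnalytic_smul

/-- The Banach space `H^∞`, with the norm of `L^∞`. -/
def Hardy : Type := analyticPart

noncomputable instance instHardyGroup : NormedAddCommGroup Hardy :=
  Submodule.normedAddCommGroup analyticPart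

noncomputable instance instHardySpace : NormedSpace ℂ Hardy :=
  Submodule.normedSpace analyticPart

/-- The boundary function of an element of `H^∞`. -/
noncomputable def bdry (f : Hardy) : TT → ℂ := fn f.1

/-- The subspace of all `f` in `H^∞` annihilated by every functional in `Φ`. -/
noncomputable def HinfPhi (Φ : Set (StrongDual ℂ Hardy)) : Submodule ℂ Hardy :=
  ⨅ φ ∈ Φ, LinearMap.ker (φ : Hardy →ₗ[ℂ] ℂ)

theorem isExposedPoint_iff {X : Type} [NormedAddCommGroup X] [NormedSpace ℂ X]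
    (p : Submodule ℂ X) (x : p) : IsExposedPoint p x ↔ ‖(x : X)‖ ≤ 1 ∧ ∃ φ : StrongDual ℂ X,
      ‖φ‖ ≤ 1 ∧ φ x = 1 ∧ ∀ y ∈ p, ‖y‖ ≤ 1 → φ y = 1 → y = x := by
  constructor
  · rintro ⟨φ, hφ, hset⟩
    have hmem : x ∈ {y : p | ‖y‖ ≤ 1 ∧ φ y = 1} := by
      rw [hset]
      rfl
    obtain ⟨hf1, hf2⟩ := hmem
    refine ⟨hf1, ?_⟩
    obtain ⟨g, hg, hgn⟩ := exists_extension_norm_eq p φ
    refine ⟨g, by rw [hgn, hφ], by rw [hg x, hf2], ?_⟩
    intro y hyp hy1 hy2
    have h1 : (⟨y, hyp⟩ : p) ∈ {y : p | ‖y‖ ≤ 1 ∧ φ y = 1} := by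
      refine ⟨hy1, ?_⟩
      rw [← hg ⟨y, hyp⟩]
      exact hy2
    rw [hset] at h1
    exact congrArg Subtype.val h1
  · rintro ⟨hx, φ, hφ, hφx, huniq⟩
    refine ⟨φ ∘L p.subtypeL, ?_, ?_⟩
    · apply le_antisymm
      · apply ContinuousLinearMap.opNorm_le_bound _ zero_le_one
        intro y
        exact (φ.le_opNorm _).trans (mul_le_mul_of_nonneg_right hφ (norm_nonneg _))
      · have h1 := (φ ∘L p.subtypeL).le_opNorm x
        have h2 : (φ ∘L p.subtypeL) x = 1 := hφx
        rw [h2, norm_one] at h1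
        have h3 : ‖φ ∘L p.subtypeL‖ * ‖x‖ ≤ ‖φ ∘L p.subtypeL‖ * 1 :=
          mul_le_mul_of_nonneg_left hx (norm_nonneg (φ ∘L p.subtypeL))
        linarith
    · ext y
      constructor
      · rintro ⟨h1, h2⟩
        exact Subtype.ext (huniq y y.2 h1 h2)
      · intro h
        rw [Set.mem_singleton_iff] at h
        rw [h]
        exact ⟨hx, hφx⟩

theorem mem_HinfPhi {Φ : Set (StrongDual ℂ Hardy)} {f : Hardy} :
    f ∈ HinfPhi Φ ↔ ∀ φ ∈ Φ, φ f = 0 := by
  unfold HinfPhi
  simp only [Submodule.mem_iInf]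
  rfl

/-- For every finite set `Φ` of bounded linear functionals on `H^∞`, the exposed points of the unit
ball of `H^∞_Φ` are exactly the functions `f` in it with `‖f‖ = 1` and `|f| = 1` on a set of
positive measure. -/
theorem result (Φ : Set (StrongDual ℂ Hardy)) (hΦ : Φ.Finite) (f : HinfPhi Φ) :
    IsExposedPoint (HinfPhi Φ) f ↔
      ‖(f : Hardy)‖ = 1 ∧ 0 < mm {ζ | ‖bdry f ζ‖ = 1} := by
  rw [isExposedPoint_iff]
  constructor
  · rintro ⟨hf1, φ, hφ, hφf, huniq⟩
    refine ⟨le_antisymm hf1 ?_, ?_⟩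
    · have h1 := φ.le_opNorm (f : Hardy)
      rw [hφf, norm_one] at h1
      exact h1.trans (mul_le_of_le_one_left (norm_nonneg _) hφ)
    · exact hard Φ hΦ (f : Hardy) (fun ψ hψ => mem_HinfPhi.1 f.2 ψ hψ) hf1 φ hφ hφf
        (fun y hy => huniq y (mem_HinfPhi.2 hy))
  · rintro ⟨hf1, hpos⟩
    obtain ⟨φ, hφ1, hφ2, hφ3⟩ := easy (f : Hardy) hf1.le hpos
    exact ⟨hf1.le, φ, hφ1, hφ2, fun y _ hy1 hy2 => hφ3 y hy1 hy2⟩

end Pool.Agent.Results.MP_4ac5ef_an.ExposedPoints
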